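import Pool.Agent.TV17.Lemma

set_option autoImplicit false

namespace Pool.Agent.TV17

open Finset

/-- number of group elements sending `x` into `S`, for a transitive action -/
lemma card_smul_mem {G X : Type} [Group G] [MulAction G X] [Fintype G] [Fintype X]
    [DecidableEq X] (htr : ∀ x y : X, ∃ g : G, g • x = y) (S : Finset X) (x : X) :
    (Finset.univ.filter (fun g : G => g • x ∈ S)).card * Fintype.card X
      = Fintype.card G * S.card := by
  classical
  have hind : ∀ y : X, (Finset.univ.filter (fun g : G => g • y ∈ S)).card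
      = (Finset.univ.filter (fun g : G => g • x ∈ S)).card := by
    intro y
    obtain ⟨h, hh⟩ := htr x y
    refine Finset.card_bij (fun g _ => g * h) ?_ ?_ ?_
    · intro g hg
      simp only [Finset.mem_filter, Finset.mem_univ, true_and] at hg ⊢
      rw [mul_smul, hh]; exact hg
    · intro g _ g' _ he
      exact mul_right_cancel he
    · intro g hg
      refine ⟨g * h⁻¹, ?_, by group⟩
      simp only [Finset.mem_filter, Finset.mem_univ, true_and] at hg ⊢
      rw [← hh, ← mul_smul]
      simpa using hg
  have h1 : ∑ y : X, (Finset.univ.filter (fun g : G => g • y ∈ S)).card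
      = Fintype.card X * (Finset.univ.filter (fun g : G => g • x ∈ S)).card := by
    rw [Finset.sum_congr rfl (fun y _ => hind y)]
    simp
  have h2 : ∑ y : X, (Finset.univ.filter (fun g : G => g • y ∈ S)).card
      = ∑ g : G, (Finset.univ.filter (fun y : X => g • y ∈ S)).card := by
    simp only [Finset.card_filter]
    rw [Finset.sum_comm]
  have h3 : ∀ g : G, (Finset.univ.filter (fun y : X => g • y ∈ S)).card = S.card := by
    intro g
    refine Finset.card_bij (fun y _ => g • y) ?_ ?_ ?_
    · intro y hy
      simpa using hy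
    · intro y _ y' _ he
      exact MulAction.injective g he
    · intro s hs
      exact ⟨g⁻¹ • s, by simpa using hs, by simp⟩
  rw [Finset.sum_congr rfl (fun g _ => h3 g)] at h2
  rw [h1] at h2
  simp only [Finset.sum_const, Finset.card_univ, smul_eq_mul] at h2
  rw [mul_comm]; exact h2

lemma exists_good {G X : Type} [Group G] [MulAction G X] [Fintype G] [Fintype X]
    [DecidableEq X] (htr : ∀ x y : X, ∃ g : G, g • x = y) (S : Finset X)
    (hS : 2 * Fintype.card X < 3 * S.card) (x y z : X) :
    ∃ g : G, g • x ∈ S ∧ g • y ∈ S ∧ g • z ∈ S := by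
  classical
  by_contra hcon
  push Not at hcon
  have hX : 0 < Fintype.card X := Fintype.card_pos_iff.2 ⟨x⟩
  have hG : 0 < Fintype.card G := Fintype.card_pos_iff.2 ⟨1⟩
  have cx := card_smul_mem (G := G) htr S x
  have cy := card_smul_mem (G := G) htr S y
  have cz := card_smul_mem (G := G) htr S z
  set a := (Finset.univ.filter (fun g : G => g • x ∈ S)).card
  set b := (Finset.univ.filter (fun g : G => g • y ∈ S)).card
  set c := (Finset.univ.filter (fun g : G => g • z ∈ S)).card
  have hle : a + b + c ≤ 2 * Fintype.card G := by
    have : ∀ g : G, ((if g • x ∈ S then 1 else 0) + (if g • y ∈ S then 1 else 0)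
        + (if g • z ∈ S then 1 else 0) : ℕ) ≤ 2 := by
      intro g
      by_cases h1 : g • x ∈ S
      · by_cases h2 : g • y ∈ S
        · have h3 := hcon g h1 h2
          simp [h1, h2, h3]
        · simp only [h1, h2, if_true, if_false]
          split_ifs <;> omega
      · simp only [h1, if_false]
        split_ifs <;> omega
    have hs := Finset.sum_le_sum (fun g (_ : g ∈ (Finset.univ : Finset G)) => this g)
    rw [Finset.sum_add_distrib, Finset.sum_add_distrib] at hs
    simp only [← Finset.card_filter] at hs
    simp only [Finset.sum_const, Finset.card_univ, smul_eq_mul] at hs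
    rw [mul_comm (Fintype.card G) 2] at hs
    exact hs
  have e : (a + b + c) * Fintype.card X = 3 * (Fintype.card G * S.card) := by
    rw [add_mul, add_mul, cx, cy, cz]; ring
  have l1 : (a + b + c) * Fintype.card X ≤ 2 * Fintype.card G * Fintype.card X :=
    Nat.mul_le_mul_right _ hle
  have l2 : 2 * Fintype.card G * Fintype.card X < 3 * (Fintype.card G * S.card) := by
    have := Nat.mul_lt_mul_of_pos_left hS hG
    calc 2 * Fintype.card G * Fintype.card X = Fintype.card G * (2 * Fintype.card X) := by ring
      _ < Fintype.card G * (3 * S.card) := this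
      _ = 3 * (Fintype.card G * S.card) := by ring
  omega

/-- `a`-element subsets of `α` -/
abbrev Sub (α : Type) (a : ℕ) : Type := {s : Finset α // s.card = a}

instance permSub (α : Type) (a : ℕ) : MulAction (Equiv.Perm α) (Sub α a) where
  smul σ s := ⟨s.1.map σ.toEmbedding, by rw [Finset.card_map]; exact s.2⟩
  one_smul s := by
    apply Subtype.ext
    change s.1.map (Equiv.refl α).toEmbedding = s.1
    simp
  mul_smul σ τ s := by
    apply Subtype.ext
    change s.1.map (σ * τ).toEmbedding = (s.1.map τ.toEmbedding).map σ.toEmbedding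
    rw [Finset.map_map]
    rfl

lemma permSub_val (α : Type) (a : ℕ) (σ : Equiv.Perm α) (s : Sub α a) :
    (σ • s).1 = s.1.map σ.toEmbedding := rfl

lemma permSub_trans (α : Type) [Fintype α] [DecidableEq α] (a : ℕ) (s t : Sub α a) :
    ∃ σ : Equiv.Perm α, σ • s = t := by
  classical
  have e : s.1 ≃ t.1 := Finset.equivOfCardEq (s.2.trans t.2.symm)
  let e' : {x // x ∈ s.1} ≃ {x // x ∈ t.1} := e
  refine ⟨e'.extendSubtype, ?_⟩
  apply Subtype.ext
  rw [permSub_val]
  apply Finset.eq_of_subset_of_card_le
  · intro x hx
    rw [Finset.mem_map] at hx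
    obtain ⟨y, hy, rfl⟩ := hx
    exact Equiv.extendSubtype_mem e' y hy
  · rw [Finset.card_map, s.2, t.2]

end Pool.Agent.TV17
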