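import Mathlib

set_option autoImplicit false

namespace Pool.Agent.TV17

/-- every seven members have a 2-cover (as in the problem) -/
def SevenTwoCoverable (F : Set (Finset ℕ)) : Prop :=
  ∀ G : Finset (Finset ℕ), (↑G : Set (Finset ℕ)) ⊆ F → G.card ≤ 7 →
    ∃ x y : ℕ, ∀ A ∈ G, x ∈ A ∨ y ∈ A

lemma exists_split (M : Finset ℕ) :
    ∃ P Q : Finset ℕ, P ∪ Q = M ∧ 2 * P.card ≤ M.card + 1 ∧ 2 * Q.card ≤ M.card + 1 := by
  obtain ⟨P, hP, hc⟩ := Finset.exists_subset_card_eq (s := M) (n := M.card / 2)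
    (Nat.div_le_self _ _)
  refine ⟨P, M \ P, ?_, ?_, ?_⟩
  · exact Finset.union_sdiff_of_subset hP
  · omega
  · have := Finset.card_sdiff_add_card_eq_card hP
    omega

/-- the seven lines of the Fano plane -/
def lines : Fin 7 → Finset (Fin 7) :=
  ![{0, 1, 2}, {0, 3, 4}, {0, 5, 6}, {1, 3, 5}, {1, 4, 6}, {2, 3, 6}, {2, 4, 5}]

lemma lines_meet : ∀ a b : Fin 7, ∃ i : Fin 7, i ∈ lines a ∧ i ∈ lines b := by decide

/-- seven members such that every point is missed along a line: impossible -/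
lemma no_fano (F : Set (Finset ℕ)) (hF : SevenTwoCoverable F) (M : Fin 7 → Finset ℕ)
    (hM : ∀ i, M i ∈ F) (key : ∀ z : ℕ, ∃ a : Fin 7, ∀ i ∈ lines a, z ∉ M i) : False := by
  classical
  obtain ⟨x, y, hxy⟩ := hF (Finset.univ.image M) (by
      intro D hD
      simp only [Finset.coe_image, Finset.coe_univ, Set.image_univ, Set.mem_range] at hD
      obtain ⟨i, rfl⟩ := hD
      exact hM i)
    (Finset.card_image_le.trans (by simp))
  obtain ⟨a, ha⟩ := key x
  obtain ⟨b, hb⟩ := key y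
  obtain ⟨i, hia, hib⟩ := lines_meet a b
  rcases hxy (M i) (Finset.mem_image_of_mem _ (Finset.mem_univ i)) with h | h
  · exact ha i hia h
  · exact hb i hib h

/-- Three members without a common point: the family has a transversal of size at most
(|A ∪ B ∪ C| + 3) / 2. -/
theorem transversal_of_triple (F : Set (Finset ℕ)) (hF : SevenTwoCoverable F)
    (A B C : Finset ℕ) (hA : A ∈ F) (hB : B ∈ F) (hC : C ∈ F)
    (hABC : A ∩ B ∩ C = ∅) :
    ∃ T : Finset ℕ, 2 * T.card ≤ (A ∪ B ∪ C).card + 3 ∧ ∀ D ∈ F, ∃ t ∈ T, t ∈ D := by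
  classical
  by_contra hcon
  push Not at hcon
  set U := A ∪ B ∪ C with hU
  set M1 := U \ A with hM1
  set M2 := (U ∩ A) \ B with hM2
  set M3 := (U ∩ A) ∩ B with hM3
  obtain ⟨P1, Q1, h1, hp1, hq1⟩ := exists_split M1
  obtain ⟨P2, Q2, h2, hp2, hq2⟩ := exists_split M2
  obtain ⟨P3, Q3, h3, hp3, hq3⟩ := exists_split M3
  have hcard : M1.card + M2.card + M3.card = U.card := by
    have e1 : M2.card + M3.card = (U ∩ A).card := by
      rw [hM2, hM3]; exact Finset.card_sdiff_add_card_inter _ _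
    have e2 : M1.card + (U ∩ A).card = U.card := by
      rw [hM1]; exact Finset.card_sdiff_add_card_inter _ _
    omega
  have hun : ∀ X Y Z : Finset ℕ, (X ∪ Y ∪ Z).card ≤ X.card + Y.card + Z.card := by
    intro X Y Z
    have a := Finset.card_union_le (X ∪ Y) Z
    have b := Finset.card_union_le X Y
    omega
  obtain ⟨A4, hA4F, hA4⟩ := hcon (P1 ∪ P2 ∪ P3) (by have := hun P1 P2 P3; omega)
  obtain ⟨A5, hA5F, hA5⟩ := hcon (P1 ∪ Q2 ∪ Q3) (by have := hun P1 Q2 Q3; omega)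
  obtain ⟨A6, hA6F, hA6⟩ := hcon (Q1 ∪ P2 ∪ Q3) (by have := hun Q1 P2 Q3; omega)
  obtain ⟨A7, hA7F, hA7⟩ := hcon (Q1 ∪ Q2 ∪ P3) (by have := hun Q1 Q2 P3; omega)
  refine no_fano F hF ![A, B, C, A4, A5, A6, A7] ?_ ?_
  · intro i
    fin_cases i <;> assumption
  intro z
  have fin3 : ∀ (a i j k : Fin 7), lines a = {i, j, k} →
      z ∉ (![A, B, C, A4, A5, A6, A7] : Fin 7 → Finset ℕ) i →
      z ∉ (![A, B, C, A4, A5, A6, A7] : Fin 7 → Finset ℕ) j →
      z ∉ (![A, B, C, A4, A5, A6, A7] : Fin 7 → Finset ℕ) k →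
      ∃ a : Fin 7, ∀ i ∈ lines a, z ∉ (![A, B, C, A4, A5, A6, A7] : Fin 7 → Finset ℕ) i := by
    intro a i j k hl hi hj hk
    refine ⟨a, ?_⟩
    intro l hl'
    rw [hl] at hl'
    simp only [Finset.mem_insert, Finset.mem_singleton] at hl'
    rcases hl' with rfl | rfl | rfl <;> assumption
  by_cases hzU : z ∈ U
  · by_cases hzA : z ∈ A
    · by_cases hzB : z ∈ B
      · have hzC : z ∉ C := by
          intro hzC
          have : z ∈ A ∩ B ∩ C := by simp [hzA, hzB, hzC]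
          rw [hABC] at this
          simp at this
        have hz3 : z ∈ P3 ∪ Q3 := by
          rw [h3, hM3]; simp [hzU, hzA, hzB]
        rcases Finset.mem_union.1 hz3 with hz | hz
        · exact fin3 5 2 3 6 rfl hzC (hA4 z (by simp [hz])) (hA7 z (by simp [hz]))
        · exact fin3 6 2 4 5 rfl hzC (hA5 z (by simp [hz])) (hA6 z (by simp [hz]))
      · have hz2 : z ∈ P2 ∪ Q2 := by
          rw [h2, hM2]; simp [hzU, hzA, hzB]
        rcases Finset.mem_union.1 hz2 with hz | hz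
        · exact fin3 3 1 3 5 rfl hzB (hA4 z (by simp [hz])) (hA6 z (by simp [hz]))
        · exact fin3 4 1 4 6 rfl hzB (hA5 z (by simp [hz])) (hA7 z (by simp [hz]))
    · have hz1 : z ∈ P1 ∪ Q1 := by
        rw [h1, hM1]; simp [hzU, hzA]
      rcases Finset.mem_union.1 hz1 with hz | hz
      · exact fin3 1 0 3 4 rfl hzA (hA4 z (by simp [hz])) (hA5 z (by simp [hz]))
      · exact fin3 2 0 5 6 rfl hzA (hA6 z (by simp [hz])) (hA7 z (by simp [hz]))
  · have hz' := hzU
    rw [hU] at hz'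
    simp only [Finset.mem_union, not_or] at hz'
    exact fin3 0 0 1 2 rfl hz'.1.1 hz'.1.2 hz'.2

end Pool.Agent.TV17
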