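import Pool.Agent.TV17.Dense

set_option autoImplicit false

namespace Pool.Agent.TV17

open Finset

/-- three `a`-subsets without a common point and with a small union -/
lemma base_triple (α : Type) [Fintype α] [DecidableEq α] (a : ℕ)
    (h : 3 * a ≤ 2 * Fintype.card α) :
    ∃ s t u : Sub α a, s.1 ∩ t.1 ∩ u.1 = ∅ ∧ 2 * (s.1 ∪ t.1 ∪ u.1).card ≤ 3 * a + 1 := by
  classical
  set p := a - a / 2 with hp
  set q := a / 2 with hq
  obtain ⟨P, -, hPc⟩ := Finset.exists_subset_card_eq (s := (Finset.univ : Finset α)) (n := p)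
    (by rw [Finset.card_univ]; omega)
  obtain ⟨Q, hQ, hQc⟩ := Finset.exists_subset_card_eq (s := (Finset.univ : Finset α) \ P)
    (n := q) (by
      have := Finset.card_sdiff_add_card_eq_card (Finset.subset_univ P)
      rw [Finset.card_univ] at this; omega)
  have hPQ : Disjoint P Q := by
    rw [Finset.disjoint_left]
    intro x hx hx'
    have := hQ hx'
    simp [hx] at this
  have hPQc : (P ∪ Q).card = p + q := by
    rw [Finset.card_union_of_disjoint hPQ, hPc, hQc]
  obtain ⟨R, hR, hRc⟩ := Finset.exists_subset_card_eq (s := (Finset.univ : Finset α) \ (P ∪ Q))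
    (n := p) (by
      have := Finset.card_sdiff_add_card_eq_card (Finset.subset_univ (P ∪ Q))
      rw [Finset.card_univ] at this; omega)
  have hR' : Disjoint (P ∪ Q) R := by
    rw [Finset.disjoint_left]
    intro x hx hx'
    have := hR hx'
    simp only [Finset.mem_sdiff] at this
    exact this.2 hx
  have hPR : Disjoint P R := Finset.disjoint_of_subset_left Finset.subset_union_left hR'
  have hQR : Disjoint Q R := Finset.disjoint_of_subset_left Finset.subset_union_right hR'
  obtain ⟨R', hR'R, hR'c⟩ := Finset.exists_subset_card_eq (s := R) (n := q) (by omega)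
  have hPR' : Disjoint P R' := Finset.disjoint_of_subset_right hR'R hPR
  refine ⟨⟨P ∪ Q, by omega⟩, ⟨Q ∪ R, ?_⟩, ⟨P ∪ R', ?_⟩, ?_, ?_⟩
  · rw [Finset.card_union_of_disjoint hQR]; omega
  · rw [Finset.card_union_of_disjoint hPR']; omega
  · ext x
    simp only [Finset.mem_inter, Finset.mem_union, Finset.notMem_empty, iff_false]
    rintro ⟨⟨h1, h2⟩, h3⟩
    rw [Finset.disjoint_left] at hPQ hPR hQR
    rcases h1 with h1 | h1
    · rcases h2 with h2 | h2
      · exact hPQ h1 h2
      · exact hPR h1 h2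
    · rcases h3 with h3 | h3
      · exact hPQ h3 h1
      · exact hQR h1 (hR'R h3)
  · have hsub : (P ∪ Q) ∪ (Q ∪ R) ∪ (P ∪ R') ⊆ (P ∪ Q) ∪ R := by
      intro x hx
      simp only [Finset.mem_union] at hx ⊢
      rcases hx with ((h | h) | (h | h)) | (h | h)
      · tauto
      · tauto
      · tauto
      · tauto
      · tauto
      · exact Or.inr (hR'R h)
    have := Finset.card_le_card hsub
    have e : ((P ∪ Q) ∪ R).card = p + q + p := by
      rw [Finset.card_union_of_disjoint hR', hPQc, hRc]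
    simp only at this ⊢
    omega

variable {m : ℕ}

/-- the finite set of naturals described by a choice in every class -/
noncomputable def toSet (V : Fin m → Finset ℕ) (a : Fin m → ℕ)
    (f : (j : Fin m) → Sub (V j) (a j)) : Finset ℕ :=
  Finset.univ.biUnion (fun j => (f j).1.map (Function.Embedding.subtype _))

/-- `A` lies in the union of the classes and has `a j` elements in the class `V j` -/
def InClass (V : Fin m → Finset ℕ) (a : Fin m → ℕ) (A : Finset ℕ) : Prop :=
  A ⊆ Finset.univ.biUnion V ∧ ∀ j, (A ∩ V j).card = a j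

lemma mem_toSet (V : Fin m → Finset ℕ) (a : Fin m → ℕ)
    (f : (j : Fin m) → Sub (V j) (a j)) (x : ℕ) :
    x ∈ toSet V a f ↔ ∃ j, ∃ h : x ∈ V j, (⟨x, h⟩ : V j) ∈ (f j).1 := by
  classical
  simp only [toSet, Finset.mem_biUnion, Finset.mem_univ, true_and, Finset.mem_map,
    Function.Embedding.coe_subtype]
  constructor
  · rintro ⟨j, y, hy, rfl⟩
    exact ⟨j, y.2, hy⟩
  · rintro ⟨j, h, hx⟩
    exact ⟨j, ⟨x, h⟩, hx, rfl⟩

lemma toSet_inter (V : Fin m → Finset ℕ) (hV : ∀ i j, i ≠ j → Disjoint (V i) (V j))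
    (a : Fin m → ℕ) (f : (j : Fin m) → Sub (V j) (a j)) (j : Fin m) :
    toSet V a f ∩ V j = (f j).1.map (Function.Embedding.subtype _) := by
  classical
  ext x
  rw [Finset.mem_inter, mem_toSet]
  simp only [Finset.mem_map, Function.Embedding.coe_subtype]
  constructor
  · rintro ⟨⟨i, hi, hx⟩, hj⟩
    by_cases hij : i = j
    · subst hij
      exact ⟨⟨x, hi⟩, hx, rfl⟩
    · exact absurd hj (Finset.disjoint_left.1 (hV i j hij) hi)
  · rintro ⟨y, hy, rfl⟩
    exact ⟨⟨j, y.2, hy⟩, y.2⟩

lemma toSet_inClass (V : Fin m → Finset ℕ) (hV : ∀ i j, i ≠ j → Disjoint (V i) (V j))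
    (a : Fin m → ℕ) (f : (j : Fin m) → Sub (V j) (a j)) : InClass V a (toSet V a f) := by
  classical
  refine ⟨?_, ?_⟩
  · intro x hx
    obtain ⟨j, hj, -⟩ := (mem_toSet V a f x).1 hx
    exact Finset.mem_biUnion.2 ⟨j, Finset.mem_univ _, hj⟩
  · intro j
    rw [toSet_inter V hV a f j, Finset.card_map]
    exact (f j).2

lemma toSet_injective (V : Fin m → Finset ℕ) (hV : ∀ i j, i ≠ j → Disjoint (V i) (V j))
    (a : Fin m → ℕ) : Function.Injective (toSet V a) := by
  classical
  intro f g h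
  funext j
  apply Subtype.ext
  have := congrArg (fun A => A ∩ V j) h
  simp only [toSet_inter V hV a] at this
  exact Finset.map_injective _ this

lemma exists_toSet (V : Fin m → Finset ℕ) 
    (a : Fin m → ℕ) (A : Finset ℕ) (hA : InClass V a A) : ∃ f, toSet V a f = A := by
  classical
  refine ⟨fun j => ⟨(A ∩ V j).subtype (fun x => x ∈ V j), ?_⟩, ?_⟩
  · rw [Finset.card_subtype]
    rw [← hA.2 j]
    congr 1
    ext x
    simp
  · ext x
    rw [mem_toSet]
    simp only [Finset.mem_subtype, Finset.mem_inter]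
    constructor
    · rintro ⟨j, -, h, -⟩; exact h
    · intro hx
      obtain ⟨j, -, hj⟩ := Finset.mem_biUnion.1 (hA.1 hx)
      exact ⟨j, hj, hx, hj⟩

/-- a triple without common point and with small union inside a dense profile class -/
theorem exists_triple (F : Set (Finset ℕ)) (V : Fin m → Finset ℕ)
    (hV : ∀ i j, i ≠ j → Disjoint (V i) (V j)) (a : Fin m → ℕ)
    (h23 : ∀ j, 3 * a j ≤ 2 * (V j).card)
    (hd : 2 * {A : Finset ℕ | InClass V a A}.ncard
      < 3 * {A : Finset ℕ | A ∈ F ∧ InClass V a A}.ncard) :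
    ∃ A B C : Finset ℕ, A ∈ F ∧ B ∈ F ∧ C ∈ F ∧ A ∩ B ∩ C = ∅ ∧
      2 * (A ∪ B ∪ C).card ≤ 3 * (∑ j, a j) + m := by
  classical
  have hb : ∀ j, ∃ stu : Sub (V j) (a j) × Sub (V j) (a j) × Sub (V j) (a j),
      stu.1.1 ∩ stu.2.1.1 ∩ stu.2.2.1 = ∅ ∧
      2 * (stu.1.1 ∪ stu.2.1.1 ∪ stu.2.2.1).card ≤ 3 * a j + 1 := by
    intro j
    obtain ⟨s, t, u, h1, h2⟩ := base_triple (V j) (a j) (by rw [Fintype.card_coe]; exact h23 j)
    exact ⟨(s, t, u), h1, h2⟩
  choose stu hstu1 hstu2 using hb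
  set S : Finset ((j : Fin m) → Sub (V j) (a j)) :=
    Finset.univ.filter (fun f => toSet V a f ∈ F) with hS
  have hinj := toSet_injective V hV a
  have e1 : {A : Finset ℕ | InClass V a A} = Set.range (toSet V a) := by
    ext A
    constructor
    · intro hA
      exact exists_toSet V a A hA
    · rintro ⟨f, rfl⟩
      exact toSet_inClass V hV a f
  have e2 : {A : Finset ℕ | A ∈ F ∧ InClass V a A} = toSet V a '' (S : Set _) := by
    ext A
    constructor
    · rintro ⟨hAF, hA⟩
      obtain ⟨f, rfl⟩ := exists_toSet V a A hA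
      exact ⟨f, by simp [hS, hAF], rfl⟩
    · rintro ⟨f, hf, rfl⟩
      refine ⟨?_, toSet_inClass V hV a f⟩
      simpa [hS] using hf
  rw [e1, e2, Set.ncard_image_of_injective _ hinj, Set.ncard_coe_finset] at hd
  rw [← Set.image_univ, Set.ncard_image_of_injective _ hinj, Set.ncard_univ,
    Nat.card_eq_fintype_card] at hd
  have htr : ∀ x y : (j : Fin m) → Sub (V j) (a j),
      ∃ g : (j : Fin m) → Equiv.Perm (V j), g • x = y := by
    intro x y
    choose g hg using fun j => permSub_trans (V j) (a j) (x j) (y j)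
    exact ⟨g, funext hg⟩
  obtain ⟨g, g1, g2, g3⟩ := exists_good (G := (j : Fin m) → Equiv.Perm (V j)) htr S hd
    (fun j => (stu j).1) (fun j => (stu j).2.1) (fun j => (stu j).2.2)
  have f1 : toSet V a (g • fun j => (stu j).1) ∈ F := by simpa [hS] using g1
  have f2 : toSet V a (g • fun j => (stu j).2.1) ∈ F := by simpa [hS] using g2
  have f3 : toSet V a (g • fun j => (stu j).2.2) ∈ F := by simpa [hS] using g3
  refine ⟨_, _, _, f1, f2, f3, ?_, ?_⟩
  · ext x
    simp only [Finset.mem_inter, Finset.notMem_empty, iff_false]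
    rintro ⟨⟨h1, h2⟩, h3⟩
    obtain ⟨i, hi, hi'⟩ := (mem_toSet V a _ x).1 h1
    obtain ⟨j, hj, hj'⟩ := (mem_toSet V a _ x).1 h2
    obtain ⟨l, hl, hl'⟩ := (mem_toSet V a _ x).1 h3
    have hij : i = j := by
      by_contra hne
      exact Finset.disjoint_left.1 (hV i j hne) hi hj
    have hil : i = l := by
      by_contra hne
      exact Finset.disjoint_left.1 (hV i l hne) hi hl
    subst hij
    subst hil
    have k1 : (⟨x, hi⟩ : V i) ∈ ((g i) • (stu i).1).1 := hi'
    have k2 : (⟨x, hi⟩ : V i) ∈ ((g i) • (stu i).2.1).1 := hj'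
    have k3 : (⟨x, hi⟩ : V i) ∈ ((g i) • (stu i).2.2).1 := hl'
    rw [permSub_val, Finset.mem_map] at k1 k2 k3
    obtain ⟨y1, hy1, e1⟩ := k1
    obtain ⟨y2, hy2, e2⟩ := k2
    obtain ⟨y3, hy3, e3⟩ := k3
    have e12 : y1 = y2 := (g i).injective (by simpa using e1.trans e2.symm)
    have e13 : y1 = y3 := (g i).injective (by simpa using e1.trans e3.symm)
    subst e12
    subst e13
    have : y1 ∈ (stu i).1.1 ∩ (stu i).2.1.1 ∩ (stu i).2.2.1 := by simp [hy1, hy2, hy3]
    rw [hstu1 i] at this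
    simp at this
  · have hsub : toSet V a (g • fun j => (stu j).1) ∪ toSet V a (g • fun j => (stu j).2.1)
        ∪ toSet V a (g • fun j => (stu j).2.2) ⊆
        Finset.univ.biUnion (fun j => (((stu j).1.1 ∪ (stu j).2.1.1 ∪ (stu j).2.2.1).map
          (g j).toEmbedding).map (Function.Embedding.subtype _)) := by
      intro x hx
      simp only [Finset.mem_biUnion, Finset.mem_univ, true_and, Finset.mem_map,
        Function.Embedding.coe_subtype]
      have aux : ∀ w : (j : Fin m) → Sub (V j) (a j),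
          (∀ j, (w j).1 ⊆ (stu j).1.1 ∪ (stu j).2.1.1 ∪ (stu j).2.2.1) →
          x ∈ toSet V a (g • w) →
          ∃ j, ∃ z : V j, (∃ y ∈ (stu j).1.1 ∪ (stu j).2.1.1 ∪ (stu j).2.2.1,
            (g j).toEmbedding y = z) ∧ (z : ℕ) = x := by
        intro w hw hxw
        obtain ⟨j, hj, hj'⟩ := (mem_toSet V a _ x).1 hxw
        have k1 : (⟨x, hj⟩ : V j) ∈ ((g j) • (w j)).1 := hj'
        rw [permSub_val, Finset.mem_map] at k1
        obtain ⟨y, hy, e⟩ := k1
        exact ⟨j, ⟨x, hj⟩, ⟨y, hw j hy, e⟩, rfl⟩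
      rcases Finset.mem_union.1 hx with hx | hx
      · rcases Finset.mem_union.1 hx with hx | hx
        · exact aux _ (fun j => fun y hy => by simp [hy]) hx
        · exact aux _ (fun j => fun y hy => by simp [hy]) hx
      · exact aux _ (fun j => fun y hy => by simp [hy]) hx
    have c1 := (Finset.card_le_card hsub).trans Finset.card_biUnion_le
    simp only [Finset.card_map] at c1
    have c2 : 2 * ∑ j, ((stu j).1.1 ∪ (stu j).2.1.1 ∪ (stu j).2.2.1).card
        ≤ ∑ j, (3 * a j + 1) := by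
      rw [Finset.mul_sum]
      exact Finset.sum_le_sum (fun j _ => hstu2 j)
    rw [Finset.sum_add_distrib, ← Finset.mul_sum] at c2
    simp only [Finset.sum_const, Finset.card_univ, Fintype.card_fin, smul_eq_mul, mul_one] at c2
    omega

/-- a 7-wise 2-coverable family containing more than two thirds of a profile class -/
theorem dense_class (F : Set (Finset ℕ)) (hF : SevenTwoCoverable F) (V : Fin m → Finset ℕ)
    (hV : ∀ i j, i ≠ j → Disjoint (V i) (V j)) (a : Fin m → ℕ)
    (h23 : ∀ j, 3 * a j ≤ 2 * (V j).card)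
    (hd : 2 * {A : Finset ℕ | InClass V a A}.ncard
      < 3 * {A : Finset ℕ | A ∈ F ∧ InClass V a A}.ncard) :
    ∃ T : Finset ℕ, 4 * T.card ≤ 3 * (∑ j, a j) + m + 6 ∧ ∀ D ∈ F, ∃ t ∈ T, t ∈ D := by
  obtain ⟨A, B, C, hA, hB, hC, h0, hU⟩ := exists_triple F V hV a h23 hd
  obtain ⟨T, hT, hT'⟩ := transversal_of_triple F hF A B C hA hB hC h0
  exact ⟨T, by omega, hT'⟩

end Pool.Agent.TV17
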