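import Pool.Agent.TV17.Main

set_option autoImplicit false

namespace Pool.Agent.TV17

open Finset

variable {m : ℕ}

/-- families on at most `9k/4` points containing more than two thirds of every profile class
that they meet -/
theorem near_symmetric (k : ℕ) (F : Set (Finset ℕ)) (hk : ∀ A ∈ F, A.card = k)
    (hF : SevenTwoCoverable F) (V : Fin m → Finset ℕ)
    (hV : ∀ i j, i ≠ j → Disjoint (V i) (V j))
    (hX : 4 * ∑ j, (V j).card ≤ 9 * k)
    (hFV : ∀ A ∈ F, A ⊆ Finset.univ.biUnion V)
    (hd : ∀ A ∈ F, 2 * {B : Finset ℕ | InClass V (fun j => (A ∩ V j).card) B}.ncard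
      < 3 * {B : Finset ℕ | B ∈ F ∧ InClass V (fun j => (A ∩ V j).card) B}.ncard) :
    ∃ T : Finset ℕ, 4 * T.card ≤ 3 * k + 3 * m + 6 ∧ ∀ A ∈ F, ∃ t ∈ T, t ∈ A := by
  classical
  have hW : ∀ j, ∃ W : Finset ℕ, W ⊆ V j ∧ W.card = ((V j).card + 2) / 3 := by
    intro j
    exact Finset.exists_subset_card_eq (by omega)
  choose W hWV hWc using hW
  set T := Finset.univ.biUnion W with hT
  have hTc : 4 * T.card ≤ 3 * k + 3 * m + 6 := by
    have h1 : T.card ≤ ∑ j, (W j).card := Finset.card_biUnion_le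
    have h2 : 3 * ∑ j, (W j).card ≤ ∑ j, ((V j).card + 2) := by
      rw [Finset.mul_sum]
      refine Finset.sum_le_sum (fun j _ => ?_)
      rw [hWc j]; omega
    rw [Finset.sum_add_distrib] at h2
    simp only [Finset.sum_const, Finset.card_univ, Fintype.card_fin, smul_eq_mul] at h2
    omega
  by_cases hcon : ∀ A ∈ F, ∃ t ∈ T, t ∈ A
  · exact ⟨T, hTc, hcon⟩
  push Not at hcon
  obtain ⟨A, hA, hAT⟩ := hcon
  have hsum : ∑ j, (A ∩ V j).card = k := by
    rw [← hk A hA]
    rw [← Finset.card_biUnion]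
    · congr 1
      ext x
      simp only [Finset.mem_biUnion, Finset.mem_univ, true_and, Finset.mem_inter]
      constructor
      · rintro ⟨j, h, -⟩; exact h
      · intro hx
        obtain ⟨j, -, hj⟩ := Finset.mem_biUnion.1 (hFV A hA hx)
        exact ⟨j, hx, hj⟩
    · intro i _ j _ hij
      exact Finset.disjoint_of_subset_left Finset.inter_subset_right
        (Finset.disjoint_of_subset_right Finset.inter_subset_right (hV i j hij))
  have h23 : ∀ j, 3 * (A ∩ V j).card ≤ 2 * (V j).card := by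
    intro j
    have hdis : Disjoint (A ∩ V j) (W j) := by
      rw [Finset.disjoint_left]
      intro x hx hxW
      exact hAT x (Finset.mem_biUnion.2 ⟨j, Finset.mem_univ _, hxW⟩) (Finset.mem_inter.1 hx).1
    have hsub : (A ∩ V j) ∪ W j ⊆ V j := Finset.union_subset Finset.inter_subset_right (hWV j)
    have := Finset.card_le_card hsub
    rw [Finset.card_union_of_disjoint hdis, hWc j] at this
    omega
  obtain ⟨T', hT', hT'F⟩ := dense_class F hF V hV _ h23 (hd A hA)
  rw [hsum] at hT'
  exact ⟨T', by omega, hT'F⟩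

end Pool.Agent.TV17
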